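import Mathlib

set_option maxRecDepth 100000

namespace Pool.Agent.H.MP_54aac5_co

open Finset

def NBL : List (List ℕ) := [[5, 9, 12], [3, 14, 17], [8, 13, 18], [1, 8, 10], [9, 14, 15], [0, 6, 9], [5, 8, 11], [11, 12, 13], [2, 3, 6], [0, 4, 5], [3, 12, 15], [6, 7, 15], [0, 7, 10], [2, 7, 14], [1, 4, 13], [4, 10, 11], [21, 25, 28], [1, 19, 30], [2, 24, 29], [17, 24, 26], [25, 30, 31], [16, 22, 25], [21, 24, 27], [27, 28, 29], [18, 19, 22], [16, 20, 21], [19, 28, 31], [22, 23, 31], [16, 23, 26], [18, 23, 30], [17, 20, 29], [20, 26, 27]]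

def ORD : List (List ℕ) := [[9, 5, 6, 8, 2, 13, 14, 4, 15, 11, 7, 12, 10, 3, 1, 17, 19, 26, 28, 23, 27, 31, 20, 30, 29, 18, 24, 22, 21, 25, 16],
  [0, 9, 5, 6, 8, 3, 10, 12, 7, 11, 15, 4, 14, 13, 2, 18, 29, 23, 28, 26, 31, 27, 22, 24, 19, 17, 30, 20, 25, 21, 16],
  [0, 5, 9, 4, 14, 13, 7, 12, 10, 15, 11, 6, 8, 3, 1, 17, 19, 26, 28, 23, 27, 31, 20, 30, 29, 18, 24, 22, 21, 25, 16],
  [0, 5, 9, 4, 15, 10, 12, 7, 11, 6, 8, 2, 13, 14, 1, 17, 19, 26, 28, 23, 27, 31, 20, 30, 29, 18, 24, 22, 21, 25, 16],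
  [0, 9, 5, 6, 11, 15, 10, 12, 7, 13, 14, 1, 3, 8, 2, 18, 29, 23, 28, 26, 31, 27, 22, 24, 19, 17, 30, 20, 25, 21, 16],
  [0, 9, 4, 14, 1, 3, 8, 6, 11, 15, 10, 12, 7, 13, 2, 18, 29, 23, 28, 26, 31, 27, 22, 24, 19, 17, 30, 20, 25, 21, 16],
  [0, 5, 9, 4, 15, 11, 7, 12, 10, 3, 8, 2, 13, 14, 1, 17, 19, 26, 28, 23, 27, 31, 20, 30, 29, 18, 24, 22, 21, 25, 16],
  [0, 12, 10, 15, 11, 6, 5, 9, 4, 14, 13, 2, 8, 3, 1, 17, 19, 26, 28, 23, 27, 31, 20, 30, 29, 18, 24, 22, 21, 25, 16],
  [0, 9, 5, 6, 11, 15, 4, 14, 1, 3, 10, 12, 7, 13, 2, 18, 29, 23, 28, 26, 31, 27, 22, 24, 19, 17, 30, 20, 25, 21, 16],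
  [0, 5, 6, 8, 2, 13, 14, 4, 15, 11, 7, 12, 10, 3, 1, 17, 19, 26, 28, 23, 27, 31, 20, 30, 29, 18, 24, 22, 21, 25, 16],
  [0, 12, 7, 11, 15, 4, 9, 5, 6, 8, 3, 1, 14, 13, 2, 18, 29, 23, 28, 26, 31, 27, 22, 24, 19, 17, 30, 20, 25, 21, 16],
  [0, 9, 5, 6, 8, 3, 1, 14, 4, 15, 10, 12, 7, 13, 2, 18, 29, 23, 28, 26, 31, 27, 22, 24, 19, 17, 30, 20, 25, 21, 16],
  [0, 9, 5, 6, 11, 7, 13, 2, 8, 3, 10, 15, 4, 14, 1, 17, 19, 26, 28, 23, 27, 31, 20, 30, 29, 18, 24, 22, 21, 25, 16],
  [0, 9, 5, 6, 11, 7, 12, 10, 15, 4, 14, 1, 3, 8, 2, 18, 29, 23, 28, 26, 31, 27, 22, 24, 19, 17, 30, 20, 25, 21, 16],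
  [0, 5, 9, 4, 15, 11, 6, 8, 2, 13, 7, 12, 10, 3, 1, 17, 19, 26, 28, 23, 27, 31, 20, 30, 29, 18, 24, 22, 21, 25, 16],
  [0, 5, 9, 4, 14, 13, 2, 8, 6, 11, 7, 12, 10, 3, 1, 17, 19, 26, 28, 23, 27, 31, 20, 30, 29, 18, 24, 22, 21, 25, 16],
  [0, 9, 5, 6, 8, 2, 13, 14, 4, 15, 11, 7, 12, 10, 3, 1, 17, 19, 26, 28, 23, 27, 31, 20, 30, 29, 18, 24, 22, 21, 25],
  [0, 5, 9, 4, 14, 1, 3, 8, 6, 11, 15, 10, 12, 7, 13, 2, 18, 29, 30, 20, 31, 27, 23, 28, 26, 19, 24, 22, 21, 25, 16],
  [0, 9, 5, 6, 8, 2, 13, 14, 4, 15, 11, 7, 12, 10, 3, 1, 17, 19, 24, 22, 27, 31, 26, 28, 23, 29, 30, 20, 25, 21, 16],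
  [0, 9, 5, 6, 8, 2, 13, 14, 4, 15, 11, 7, 12, 10, 3, 1, 17, 30, 29, 18, 24, 22, 27, 23, 28, 26, 31, 20, 25, 21, 16],
  [0, 5, 9, 4, 14, 1, 3, 8, 6, 11, 15, 10, 12, 7, 13, 2, 18, 24, 19, 17, 30, 29, 23, 28, 26, 31, 27, 22, 21, 25, 16],
  [0, 5, 9, 4, 14, 1, 3, 8, 6, 11, 15, 10, 12, 7, 13, 2, 18, 29, 23, 28, 26, 31, 27, 22, 24, 19, 17, 30, 20, 25, 16],
  [0, 9, 5, 6, 8, 2, 13, 14, 4, 15, 11, 7, 12, 10, 3, 1, 17, 30, 29, 18, 24, 19, 26, 28, 23, 27, 31, 20, 25, 21, 16],
  [0, 9, 5, 6, 8, 2, 13, 14, 4, 15, 11, 7, 12, 10, 3, 1, 17, 19, 24, 18, 29, 30, 20, 25, 21, 22, 27, 31, 26, 28, 16],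
  [0, 5, 9, 4, 14, 1, 3, 8, 6, 11, 15, 10, 12, 7, 13, 2, 18, 29, 23, 28, 26, 19, 17, 30, 20, 31, 27, 22, 21, 25, 16],
  [0, 9, 5, 6, 8, 2, 13, 14, 4, 15, 11, 7, 12, 10, 3, 1, 17, 19, 26, 28, 23, 27, 31, 20, 30, 29, 18, 24, 22, 21, 16],
  [0, 5, 9, 4, 14, 1, 3, 8, 6, 11, 15, 10, 12, 7, 13, 2, 18, 29, 30, 17, 19, 24, 22, 21, 25, 20, 31, 27, 23, 28, 16],
  [0, 5, 9, 4, 14, 1, 3, 8, 6, 11, 15, 10, 12, 7, 13, 2, 18, 29, 23, 28, 26, 31, 20, 30, 17, 19, 24, 22, 21, 25, 16],
  [0, 9, 5, 6, 8, 2, 13, 14, 4, 15, 11, 7, 12, 10, 3, 1, 17, 30, 20, 31, 26, 19, 24, 18, 29, 23, 27, 22, 21, 25, 16],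
  [0, 5, 9, 4, 14, 1, 3, 8, 6, 11, 15, 10, 12, 7, 13, 2, 18, 24, 19, 17, 30, 20, 31, 26, 28, 23, 27, 22, 21, 25, 16],
  [0, 9, 5, 6, 8, 2, 13, 14, 4, 15, 11, 7, 12, 10, 3, 1, 17, 19, 26, 28, 23, 29, 18, 24, 22, 27, 31, 20, 25, 21, 16],
  [0, 9, 5, 6, 8, 2, 13, 14, 4, 15, 11, 7, 12, 10, 3, 1, 17, 19, 26, 28, 23, 27, 22, 24, 18, 29, 30, 20, 25, 21, 16],
  [0, 9, 5, 6, 8, 2, 13, 14, 4, 15, 11, 7, 12, 10, 3, 1, 17, 19, 26, 28, 23, 27, 31, 20, 30, 29, 18, 24, 22, 21, 25, 16]]

def EX : List ℕ := [9, 0, 0, 0, 0, 0, 0, 0, 0, 0, 0, 0, 0, 0, 0, 0, 25, 0, 0, 0, 0, 0, 0, 0, 0, 0, 0, 0, 0, 0, 0, 0]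

def nb (v : ℕ) : List ℕ := NBL.getD v []
def ord (v i : ℕ) : ℕ := (ORD.getD v []).getD i 0
def pos (v w : ℕ) : ℕ := (ORD.getD v []).idxOf w
def len (v : ℕ) : ℕ := if v < 32 then 30 else 31
def ex (v : ℕ) : ℕ := EX.getD v 0

def dead (t : ℕ) : ℕ → ℕ → List ℕ → Bool
  | 0, _, _ => false
  | f + 1, cur, vis => (nb cur).all fun w => vis.contains w ||
      (if w / 16 = t then dead t f w (w :: vis)
        else (List.range 16).any fun i => !vis.contains (16 * t + i))

theorem hA : ∀ a < 32, (nb a).length = 3 ∧ (nb a).Nodup ∧ ∀ b ∈ nb a, b < 32 ∧ b ≠ a ∧ a ∈ nb b ∧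
    (a / 16 ≠ b / 16 → (a % 16 = 1 ∧ b % 16 = 1) ∨ (a % 16 = 2 ∧ b % 16 = 2)) := by
  decide +kernel

theorem hD : ∀ t < 2, ∀ u ∈ nb (16 * t + 1), u / 16 = t → dead t 17 u [u, 16 * t + 1] = true := by
  decide +kernel

theorem hO : ∀ v < 33, (∀ i ≤ len v, ord v i < 32 ∧ ord v i ≠ v ∧ pos v (ord v i) = i) ∧
    (∀ w < 32, w ≠ v → pos v w ≤ len v ∧ ord v (pos v w) = w) ∧
    (∀ i < len v, ord v (i + 1) ∈ nb (ord v i)) := by
  decide +kernel

theorem hE : ∀ v < 32, ∀ w < 32, w = v ∨ w = ex v ∨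
    (if pos 32 w = 0 ∨ pos 32 w = 31 then 1 else 2) =
      (if pos v w = 0 ∨ pos v w = 30 then 1 else 2) := by
  decide +kernel

abbrev V := Fin 32

def G : SimpleGraph V where
  Adj u v := v.val ∈ nb u.val
  symm := ⟨fun u _ h => ((hA u u.2).2.2 _ h).2.2.1⟩
  loopless := ⟨fun u h => ((hA u u.2).2.2 _ h).2.1 rfl⟩

theorem adj_iff {u v : V} : G.Adj u v ↔ v.val ∈ nb u.val := Iff.rfl

theorem cubic (u : V) : (G.neighborSet u).ncard = 3 := by
  have h := hA u u.2
  have e : (Fin.val '' G.neighborSet u) = ((nb u.val).toFinset : Set ℕ) := by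
    ext b
    simp only [Set.mem_image, SimpleGraph.mem_neighborSet, adj_iff, List.coe_toFinset,
      Set.mem_ofPred_eq]
    constructor
    · rintro ⟨w, hw, rfl⟩; exact hw
    · intro hb; exact ⟨⟨b, (h.2.2 b hb).1⟩, hb, rfl⟩
  rw [← Set.ncard_image_of_injective _ Fin.val_injective, e, Set.ncard_coe_finset,
    List.toFinset_card_of_nodup h.2.1, h.1]

attribute [local irreducible] nb ord pos

theorem escape (t : ℕ) {w s : V} (q : G.Walk w s) (hs : s.val = 16 * t + 1) (hq : q.IsPath)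
    (hw : w.val / 16 ≠ t) (h2 : ∀ y ∈ q.support, y.val ≠ 16 * t + 2) :
    ∀ y ∈ q.support, y.val / 16 = t → y = s := by
  induction q with
  | nil => intro y hy _; simpa using hy
  | @cons a u c h q ih =>
    intro y hy hy2
    rw [SimpleGraph.Walk.support_cons, List.mem_cons] at hy
    rcases hy with rfl | hy
    · exact absurd hy2 hw
    have hq' := hq.of_cons
    by_cases hu : u.val / 16 = t
    · have := ((hA a a.2).2.2 _ h).2.2.2 (by omega)
      have h3 := h2 u (by simp)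
      have : u = c := Fin.ext (by omega)
      subst this
      rw [SimpleGraph.Walk.isPath_iff_eq_nil] at hq'
      subst hq'
      simpa using hy
    · exact ih hs hq' hu (fun y hy => h2 y (by simp [hy])) y hy hy2

theorem dead_sound (t : ℕ) (s : V) (hs : s.val = 16 * t + 1) :
    ∀ (f : ℕ) (cur : V) (vis : List ℕ) (q : G.Walk cur s), dead t f cur vis = true → q.IsPath →
      cur ≠ s → cur.val / 16 = t → cur.val ∈ vis → s.val ∈ vis →
      (∀ y ∈ q.support, y.val ∈ vis → y = cur ∨ y = s) →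
      (∀ y : V, y.val / 16 = t → y.val ∈ vis ∨ y ∈ q.support) →
      (∃ y ∈ q.support, y.val / 16 ≠ t) → False := by
  intro f
  induction f with
  | zero => intro cur vis q h; simp [dead] at h
  | succ f ih =>
    intro cur vis q h hq hne hc c1 c2 hv hcov hout
    cases q with
    | nil => exact hne rfl
    | @cons _ w _ hadj q =>
      rw [dead, List.all_eq_true] at h
      have h1 := h w hadj
      have hq' := hq.of_cons
      have hcn : cur ∉ q.support := ((SimpleGraph.Walk.cons_isPath_iff _ _).mp hq).2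
      by_cases hw : w.val ∈ vis
      · rcases hv w (by simp) hw with e | e
        · exact hadj.ne e.symm
        · subst e
          rw [SimpleGraph.Walk.isPath_iff_eq_nil] at hq'
          subst hq'
          obtain ⟨y, hy, hy2⟩ := hout
          simp at hy
          rcases hy with rfl | rfl <;> omega
      · simp only [List.contains_eq_mem, hw, decide_false, Bool.false_or] at h1
        split_ifs at h1 with hwt
        · refine ih w (w.val :: vis) q h1 hq' (fun e => hw (e ▸ c2)) hwt (by simp) (by simp [c2])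
            ?_ ?_ ?_
          · intro y hy hy2
            rcases List.mem_cons.mp hy2 with e | e
            · exact Or.inl (Fin.ext e)
            · rcases hv y (by simp [hy]) e with e2 | e2
              · exact absurd (e2 ▸ hy) hcn
              · exact Or.inr e2
          · intro y hy
            rcases hcov y hy with e | e
            · exact Or.inl (by simp [e])
            · rw [SimpleGraph.Walk.support_cons, List.mem_cons] at e
              rcases e with rfl | e
              · exact Or.inl (by simp [c1])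
              · exact Or.inr e
          · obtain ⟨y, hy, hy2⟩ := hout
            rw [SimpleGraph.Walk.support_cons, List.mem_cons] at hy
            rcases hy with rfl | hy
            · exact absurd hc hy2
            · exact ⟨y, hy, hy2⟩
        · simp only [List.any_eq_true, List.mem_range, Bool.not_eq_true',
            decide_eq_false_iff_not] at h1
          obtain ⟨i, hi, hi2⟩ := h1
          have hcs : cur.val ≠ s.val := fun e => hne (Fin.ext e)
          have hx := ((hA cur cur.2).2.2 _ hadj).2.2.2 (by omega)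
          have hlt := cur.2
          let y : V := ⟨16 * t + i, by omega⟩
          have hyt : y.val / 16 = t := by show (16 * t + i) / 16 = t; omega
          rcases hcov y hyt with e | e
          · exact hi2 e
          rw [SimpleGraph.Walk.support_cons, List.mem_cons] at e
          rcases e with e | e
          · exact hi2 (show y.val ∈ vis from e ▸ c1)
          have := escape t q hs hq' hwt (fun z hz e2 => hcn ((show z = cur from
            Fin.ext (by omega)) ▸ hz)) y e hyt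
          exact hi2 (show y.val ∈ vis from this ▸ c2)

theorem noCyc0 (t : ℕ) (ht : t < 2) (s : V) (hs : s.val = 16 * t + 1) (c : G.Walk s s)
    (hc : c.IsCycle) (hsnd : c.snd.val / 16 = t) (hcov : ∀ y : V, y.val / 16 = t → y ∈ c.support)
    (hout : ∃ y ∈ c.support, y.val / 16 ≠ t) : False := by
  cases c with
  | nil => exact hc.not_nil (by simp)
  | @cons _ u _ hadj q =>
    have hq := ((SimpleGraph.Walk.cons_isCycle_iff _ _).mp hc).1
    simp only [SimpleGraph.Walk.snd_cons] at hsnd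
    have hd := hD t ht u (hs ▸ hadj) hsnd
    refine dead_sound t s hs 17 u _ q hd hq hadj.ne' hsnd (by simp) (by simp [hs]) ?_ ?_ ?_
    · intro y _ hy
      simp only [List.mem_cons, List.not_mem_nil, or_false] at hy
      rcases hy with e | e
      · exact Or.inl (Fin.ext e)
      · exact Or.inr (Fin.ext (by omega))
    · intro y hy
      have := hcov y hy
      rw [SimpleGraph.Walk.support_cons, List.mem_cons] at this
      rcases this with rfl | e
      · exact Or.inr q.end_mem_support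
      · exact Or.inr e
    · obtain ⟨y, hy, hy2⟩ := hout
      rw [SimpleGraph.Walk.support_cons, List.mem_cons] at hy
      rcases hy with rfl | hy
      · omega
      · exact ⟨y, hy, hy2⟩

theorem noCyc (v a : V) (c : G.Walk a a) (hc : c.IsCycle) (hcov : ∀ y, y ≠ v → y ∈ c.support) :
    False := by
  have hv := v.2
  obtain ⟨t, ht, htv⟩ : ∃ t < 2, v.val / 16 ≠ t := ⟨1 - v.val / 16, by omega, by omega⟩
  let s : V := ⟨16 * t + 1, by omega⟩
  have hs : s.val = 16 * t + 1 := rfl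
  have hsm : s ∈ c.support := hcov s (fun e => htv (by rw [← e, hs]; omega))
  have hc' := hc.rotate hsm
  have cov' : ∀ y : V, y.val / 16 = t → y ∈ (c.rotate s hsm).support := by
    intro y hy
    rw [SimpleGraph.Walk.mem_support_rotate_iff]
    exact hcov y (fun e => htv (e ▸ hy))
  have out' : ∃ y ∈ (c.rotate s hsm).support, y.val / 16 ≠ t := by
    let y : V := ⟨16 * (v.val / 16) + (v.val + 1) % 16, by omega⟩
    have hy : y.val = 16 * (v.val / 16) + (v.val + 1) % 16 := rfl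
    refine ⟨y, ?_, by omega⟩
    rw [SimpleGraph.Walk.mem_support_rotate_iff]
    exact hcov y (fun e => by rw [e] at hy; omega)
  generalize c.rotate s hsm = d at hc' cov' out'
  by_cases h1 : d.snd.val / 16 = t
  · exact noCyc0 t ht s hs d hc' h1 cov' out'
  · refine noCyc0 t ht s hs d.reverse hc'.reverse ?_ (by simpa using cov') (by simpa using out')
    by_contra h2
    have a1 := d.adj_snd hc'.not_nil
    have a2 := d.reverse.adj_snd hc'.reverse.not_nil
    have b1 := ((hA s s.2).2.2 _ a1).2.2.2 (by omega)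
    have b2 := ((hA s s.2).2.2 _ a2).2.2.2 (by omega)
    have l1 := d.snd.2
    have l2 := d.reverse.snd.2
    apply hc'.snd_ne_penultimate
    rw [← SimpleGraph.Walk.snd_reverse]
    exact Fin.ext (by omega)

/-! path trees -/

def posG {W : Type} (p : W → ℕ) : SimpleGraph W where
  Adj u w := p u + 1 = p w ∨ p w + 1 = p u
  symm := ⟨fun _ _ h => h.symm⟩
  loopless := ⟨fun u h => by omega⟩

theorem posG_spec {W : Type} [Fintype W] (n : ℕ) (hn : 1 ≤ n) (p : W → ℕ)
    (hinj : Function.Injective p) (hle : ∀ w, p w ≤ n) (hs : ∀ i ≤ n, ∃ w, p w = i)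
    (hsum : ∑ i ∈ range (n + 1), (if i = 0 ∨ i = n then 1 else 2) = 2 * n) :
    (posG p).IsTree ∧ (∀ w, ((posG p).neighborSet w).ncard = if p w = 0 ∨ p w = n then 1 else 2) ∧
    {w | ((posG p).neighborSet w).ncard = 1}.ncard = 2 := by
  classical
  have hdeg : ∀ w, ((posG p).neighborSet w).ncard = if p w = 0 ∨ p w = n then 1 else 2 := by
    intro w
    have hw := hle w
    split_ifs with h
    · rw [Set.ncard_eq_one]
      rcases h with h | h
      · obtain ⟨u, hu⟩ := hs 1 hn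
        refine ⟨u, ?_⟩
        ext z
        simp only [SimpleGraph.mem_neighborSet, posG, Set.mem_singleton_iff]
        exact ⟨fun k => hinj (by omega), fun k => by subst k; omega⟩
      · obtain ⟨u, hu⟩ := hs (n - 1) (by omega)
        refine ⟨u, ?_⟩
        ext z
        have := hle z
        simp only [SimpleGraph.mem_neighborSet, posG, Set.mem_singleton_iff]
        exact ⟨fun k => hinj (by omega), fun k => by subst k; omega⟩
    · rw [Set.ncard_eq_two]
      obtain ⟨u, hu⟩ := hs (p w + 1) (by omega)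
      obtain ⟨u', hu'⟩ := hs (p w - 1) (by omega)
      refine ⟨u, u', fun e => by subst e; omega, ?_⟩
      ext z
      simp only [SimpleGraph.mem_neighborSet, posG, Set.mem_insert_iff, Set.mem_singleton_iff]
      constructor
      · rintro (k | k)
        · exact Or.inl (hinj (by omega))
        · exact Or.inr (hinj (by omega))
      · rintro (k | k) <;> subst k <;> omega
  obtain ⟨w0, h0⟩ := hs 0 (by omega)
  obtain ⟨wn, hn'⟩ := hs n le_rfl
  have hbij : ∀ f : ℕ → ℕ, ∑ w, f (p w) = ∑ i ∈ range (n + 1), f i := by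
    intro f
    apply sum_bij (fun w _ => p w)
    · intro w _; exact mem_range.mpr (Nat.lt_succ_of_le (hle w))
    · intro a _ b _ e; exact hinj e
    · intro i hi
      obtain ⟨w, hw⟩ := hs i (Nat.le_of_lt_succ (mem_range.mp hi))
      exact ⟨w, mem_univ _, hw⟩
    · intro _ _; rfl
  refine ⟨?_, hdeg, ?_⟩
  · rw [SimpleGraph.isTree_iff_connected_and_card]
    have hr : ∀ k, ∀ w, p w = k → (posG p).Reachable w0 w := by
      intro k
      induction k with
      | zero => intro w hw; rw [show w = w0 from hinj (by omega)]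
      | succ k ih =>
        intro w hw
        have := hle w
        obtain ⟨u, hu⟩ := hs k (by omega)
        exact (ih u hu).trans (SimpleGraph.Adj.reachable (Or.inl (by omega)))
    have : Nonempty W := ⟨w0⟩
    refine ⟨⟨fun u v => (hr _ u rfl).symm.trans (hr _ v rfl)⟩, ?_⟩
    have h := (posG p).sum_degrees_eq_twice_card_edges
    have h2 : ∀ v, (posG p).degree v = if p v = 0 ∨ p v = n then 1 else 2 := by
      intro v
      rw [← hdeg, ← SimpleGraph.card_neighborSet_eq_degree, Set.ncard_eq_toFinset_card',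
        Set.toFinset_card]
    simp only [h2] at h
    rw [hbij (fun i => if i = 0 ∨ i = n then 1 else 2), hsum] at h
    have h3 := hbij (fun _ => 1)
    simp only [sum_const, card_univ, smul_eq_mul, mul_one, card_range] at h3
    rw [Nat.card_eq_fintype_card, ← SimpleGraph.edgeFinset_card, Nat.card_eq_fintype_card]
    omega
  · rw [Set.ncard_eq_two]
    refine ⟨w0, wn, fun e => by subst e; omega, ?_⟩
    ext z
    simp only [Set.mem_ofPred_eq, hdeg, Set.mem_insert_iff, Set.mem_singleton_iff]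
    constructor
    · intro k
      split_ifs at k with k2
      · rcases k2 with k2 | k2
        · exact Or.inl (hinj (by omega))
        · exact Or.inr (hinj (by omega))
      · omega
    · rintro (k | k) <;> subst k <;> simp [*]

theorem two_leaves {W : Type} [Fintype W] [Nontrivial W] (T : SimpleGraph W) (hT : T.IsTree) :
    2 ≤ {w | (T.neighborSet w).ncard = 1}.ncard := by
  classical
  have h := T.sum_degrees_eq_twice_card_edges
  have hc := hT.card_edgeFinset
  have e : {w | (T.neighborSet w).ncard = 1} = (univ.filter fun w => T.degree w = 1 : Finset W) := by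
    ext w
    simp only [Set.mem_ofPred_eq, coe_filter, mem_univ, true_and]
    rw [← SimpleGraph.card_neighborSet_eq_degree, Set.ncard_eq_toFinset_card', Set.toFinset_card]
  rw [e, Set.ncard_coe_finset, card_filter]
  have h2 : ∑ _w : W, 2 ≤ ∑ w, (T.degree w + if T.degree w = 1 then 1 else 0) := by
    apply sum_le_sum
    intro w _
    have := hT.connected.preconnected.degree_pos_of_nontrivial w
    split_ifs <;> omega
  rw [sum_add_distrib] at h2
  simp only [sum_const, card_univ, smul_eq_mul] at h2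
  omega

def S0 : SimpleGraph V := posG fun w => pos 32 w.val
def Sv (v : V) : SimpleGraph ({v}ᶜ : Set V) := posG fun w => pos v.val w.val.val

theorem S0_spec : S0 ≤ G ∧ S0.IsTree ∧
    (∀ w, (S0.neighborSet w).ncard = if pos 32 w.val = 0 ∨ pos 32 w.val = 31 then 1 else 2) ∧
    {w | (S0.neighborSet w).ncard = 1}.ncard = 2 := by
  obtain ⟨h1, h2, h3⟩ := hO 32 (by norm_num)
  have hl : len 32 = 31 := rfl
  rw [hl] at h1 h2 h3
  have h2' : ∀ w : V, pos 32 w.val ≤ 31 ∧ ord 32 (pos 32 w.val) = w.val := fun w =>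
    h2 w w.2 (by have := w.2; omega)
  refine ⟨?_, posG_spec 31 (by norm_num) _ ?_ (fun w => (h2' w).1) ?_ (by decide)⟩
  · have key : ∀ u w : V, pos 32 u.val + 1 = pos 32 w.val → G.Adj u w := by
      intro u w h
      have := h3 (pos 32 u.val) (by have := (h2' w).1; omega)
      rwa [h, (h2' w).2, (h2' u).2] at this
    intro u w h
    rcases h with h | h
    · exact key u w h
    · exact (key w u h).symm
  · intro u w h
    apply Fin.ext
    rw [← (h2' u).2, ← (h2' w).2]
    exact congrArg _ h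
  · intro i hi
    exact ⟨⟨ord 32 i, (h1 i hi).1⟩, (h1 i hi).2.2⟩

theorem Sv_spec (v : V) : Sv v ≤ G.induce {v}ᶜ ∧ (Sv v).IsTree ∧
    (∀ w, ((Sv v).neighborSet w).ncard =
      if pos v.val w.val.val = 0 ∨ pos v.val w.val.val = 30 then 1 else 2) ∧
    {w | ((Sv v).neighborSet w).ncard = 1}.ncard = 2 := by
  classical
  obtain ⟨h1, h2, h3⟩ := hO v.val (by have := v.2; omega)
  have hl : len v.val = 30 := if_pos v.2
  rw [hl] at h1 h2 h3
  have h2' : ∀ w : ({v}ᶜ : Set V), pos v.val w.val.val ≤ 30 ∧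
      ord v.val (pos v.val w.val.val) = w.val.val := fun w =>
    h2 w.val w.val.2 (fun e => w.2 (Fin.ext e))
  refine ⟨?_, posG_spec 30 (by norm_num) _ ?_ (fun w => (h2' w).1) ?_ (by decide)⟩
  · have key : ∀ u w : ({v}ᶜ : Set V), pos v.val u.val.val + 1 = pos v.val w.val.val →
        G.Adj u.val w.val := by
      intro u w h
      have := h3 (pos v.val u.val.val) (by have := (h2' w).1; omega)
      rwa [h, (h2' w).2, (h2' u).2] at this
    intro u w h
    rcases h with h | h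
    · exact key u w h
    · exact (key w u h).symm
  · intro u w h
    apply Subtype.ext
    apply Fin.ext
    rw [← (h2' u).2, ← (h2' w).2]
    exact congrArg _ h
  · intro i hi
    exact ⟨⟨⟨ord v.val i, (h1 i hi).1⟩, fun e => (h1 i hi).2.1 (congrArg Fin.val e)⟩,
      (h1 i hi).2.2⟩

end Pool.Agent.H.MP_54aac5_co
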